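import Mathlib
import Pool.Agent.H29.Trap

namespace Pool.Agent.Results.MP_2dcdad_ag.Example
open MvPolynomial

/-- geometric points of the affine plane over `F` -/
abbrev Pt (F : Type) [Field F] := Fin 2 → AlgebraicClosure F

variable {F : Type} [Field F]

/-- the action on geometric points of the polynomial map with components `T i` over `F` -/
noncomputable def act (T : Fin 2 → MvPolynomial (Fin 2) F) (x : Pt F) : Pt F :=
  fun i => aeval x (T i)

/-- geometric points of the closed subvariety cut out by the ideal `I` of `F[x,y]` -/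
def V (I : Ideal (MvPolynomial (Fin 2) F)) : Set (Pt F) := {x | ∀ f ∈ I, aeval x f = 0}

/-- geometric irreducibility: the ideal over the algebraic closure of the set is prime -/
def GeomIrr (Y : Set (Pt F)) : Prop := (vanishingIdeal (AlgebraicClosure F) Y).IsPrime

/-- the forward orbit of `Q` reaches `P` -/
def Reach (T : Fin 2 → MvPolynomial (Fin 2) F) (Q P : Pt F) : Prop :=
  ∃ k, 1 ≤ k ∧ (act T)^[k] Q = P

/-- the map `(x + x (x - 1) (y - x^2), x)` -/
noncomputable def T0 (F : Type) [Field F] : Fin 2 → MvPolynomial (Fin 2) F :=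
  ![X 0 + X 0 * (X 0 - 1) * (X 1 - X 0 ^ 2), X 0]

lemma act0 (x : Pt F) : act (T0 F) x 0 = x 0 + x 0 * (x 0 - 1) * (x 1 - x 0 ^ 2) := by
  simp [act, T0]
lemma act1 (x : Pt F) : act (T0 F) x 1 = x 0 := by simp [act, T0]

lemma kill0 (x : Pt F) (h : x 0 = 0) : act (T0 F) x = 0 := by
  funext i
  fin_cases i
  · simp [act0, h]
  · simp [act1, h]

lemma kill1 (x : Pt F) (h : x 0 = 1) : act (T0 F) x = 1 := by
  funext i
  fin_cases i
  · simp [act0, h]
  · simp [act1, h]

lemma mem_V (y : Pt F) : y ∈ V (Ideal.span {X 1} : Ideal (MvPolynomial (Fin 2) F)) ↔ y 1 = 0 := by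
  constructor
  · intro h
    simpa using h _ (Ideal.subset_span rfl)
  · intro h f hf
    obtain ⟨g, rfl⟩ := Ideal.mem_span_singleton'.1 hf
    simp [h]

lemma orbit (k : ℕ) : ∃ a b : Polynomial (AlgebraicClosure F), a.eval 0 = 1 ∧ b.eval 0 = 1 ∧
    ∀ t, (act (T0 F))^[k + 1] ![t, 0] 0 = t * a.eval t ∧
      (act (T0 F))^[k + 1] ![t, 0] 1 = t * b.eval t := by
  induction k with
  | zero =>
    refine ⟨1 - (Polynomial.X - 1) * Polynomial.X ^ 2, 1, by simp, by simp, fun t => ?_⟩
    simp only [zero_add, Function.iterate_one, act0, act1]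
    simp
    ring
  | succ k ih =>
    obtain ⟨a, b, h0, -, h⟩ := ih
    refine ⟨a * (1 + (Polynomial.X * a - 1) * (Polynomial.X * b - (Polynomial.X * a) ^ 2)), a,
      by simp [h0], h0, fun t => ?_⟩
    rw [Function.iterate_succ_apply', act0, act1, (h t).1, (h t).2]
    simp
    ring

lemma root (g d : Polynomial (AlgebraicClosure F)) (hg : g ≠ 0) (hd : d.eval 0 = 1) :
    ∃ t, 1 + g.eval t * (t * d.eval t) = 0 := by
  have : (1 + g * (Polynomial.X * d)).degree ≠ 0 := by
    intro h
    have h1 := Polynomial.eq_C_of_degree_eq_zero h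
    have h2 : (1 + g * (Polynomial.X * d)).coeff 0 = 1 := by
      simp [Polynomial.coeff_zero_eq_eval_zero]
    rw [h2, Polynomial.C_1, add_eq_left] at h1
    rcases mul_eq_zero.1 h1 with h3 | h3
    · exact hg h3
    · rcases mul_eq_zero.1 h3 with h4 | h4
      · exact Polynomial.X_ne_zero h4
      · simp [h4] at hd
  obtain ⟨t, ht⟩ := IsAlgClosed.exists_root _ this
  exact ⟨t, by simpa using ht⟩

lemma inf_of {α : Type*} (f : α → α) (Y : Set α) (P : α) (hP : f P = P)
    (h : ∀ k, ∃ Q ∈ Y, f^[k + 1] Q ≠ P ∧ f^[k + 3] Q = P) :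
    {Q ∈ Y | ∃ k, 1 ≤ k ∧ f^[k] Q = P}.Infinite := by
  intro hfin
  have : ∀ Q, ∃ k, Q ∈ {Q ∈ Y | ∃ k, 1 ≤ k ∧ f^[k] Q = P} → f^[k] Q = P := by
    intro Q
    by_cases hQ : Q ∈ {Q ∈ Y | ∃ k, 1 ≤ k ∧ f^[k] Q = P}
    · obtain ⟨k, -, hk⟩ := hQ.2
      exact ⟨k, fun _ => hk⟩
    · exact ⟨0, fun h => absurd h hQ⟩
  choose n hn using this
  obtain ⟨K, hK⟩ := (hfin.image n).bddAbove
  obtain ⟨Q, hQ, h1, h2⟩ := h K
  have hm : Q ∈ {Q ∈ Y | ∃ k, 1 ≤ k ∧ f^[k] Q = P} := ⟨hQ, K + 3, by omega, h2⟩
  have h3 : n Q ≤ K := hK ⟨Q, hm, rfl⟩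
  apply h1
  obtain ⟨j, hj⟩ : ∃ j, K + 1 = j + n Q := ⟨K + 1 - n Q, by omega⟩
  rw [hj, Function.iterate_add_apply, hn Q hm, Function.iterate_fixed hP]

lemma irr : GeomIrr (V (Ideal.span {X 1} : Ideal (MvPolynomial (Fin 2) F))) := by
  let φ : MvPolynomial (Fin 2) (AlgebraicClosure F) →ₐ[AlgebraicClosure F]
      Polynomial (AlgebraicClosure F) := aeval ![Polynomial.X, 0]
  have hφ : ∀ (t : AlgebraicClosure F) (f : MvPolynomial (Fin 2) (AlgebraicClosure F)),
      aeval ![t, 0] f = Polynomial.aeval t (φ f) := by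
    intro t f
    have : (aeval ![t, 0] : MvPolynomial (Fin 2) (AlgebraicClosure F) →ₐ[AlgebraicClosure F] _)
        = (Polynomial.aeval t).comp φ := by
      ext i
      fin_cases i <;> simp [φ]
    rw [this]
    rfl
  have : vanishingIdeal (AlgebraicClosure F)
      (V (Ideal.span {X 1} : Ideal (MvPolynomial (Fin 2) F))) = RingHom.ker φ := by
    ext f
    rw [mem_vanishingIdeal_iff, RingHom.mem_ker]
    constructor
    · intro h
      apply Polynomial.funext
      intro t
      have := h ![t, 0] ((mem_V _).2 rfl)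
      rw [hφ] at this
      simpa using this
    · intro h x hx
      have hx' : x = ![x 0, 0] := by
        funext i
        fin_cases i
        · rfl
        · exact (mem_V _).1 hx
      rw [hx', hφ, h, map_zero]
  unfold GeomIrr
  rw [this]
  exact RingHom.ker_isPrime _

theorem result (F : Type) [Field F] [Finite F] :
    ∃ (T : Fin 2 → MvPolynomial (Fin 2) F) (I : Ideal (MvPolynomial (Fin 2) F)) (P₁ P₂ : Pt F),
      P₁ ≠ P₂ ∧ {P | act T P = P} = {P₁, P₂} ∧ GeomIrr (V I) ∧
      (∀ Q ∈ V I, Reach T Q P₁ ∨ Reach T Q P₂) ∧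
      {Q ∈ V I | Reach T Q P₁}.Infinite ∧ {Q ∈ V I | Reach T Q P₂}.Infinite := by
  refine ⟨T0 F, Ideal.span {X 1}, 0, 1, zero_ne_one, ?_, irr, fun Q hQ => ?_, ?_, ?_⟩
  · ext P
    constructor
    · intro hP
      have e0 := congrFun hP 0
      have e1 := congrFun hP 1
      rw [act0] at e0
      rw [act1] at e1
      rw [← e1] at e0
      have e2 : (P 0 * (P 0 - 1)) ^ 2 = 0 := by linear_combination (-1) * e0
      rcases mul_eq_zero.1 (pow_eq_zero_iff two_ne_zero |>.1 e2) with h | h
      · left
        rw [← kill0 P h]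
        exact Eq.symm hP
      · right
        rw [← kill1 P (sub_eq_zero.1 h)]
        exact Eq.symm hP
    · rintro (rfl | rfl)
      · exact kill0 _ rfl
      · exact kill1 _ rfl
  · rw [mem_V] at hQ
    by_cases h0 : Q 0 = 0
    · exact Or.inl ⟨1, le_rfl, kill0 _ h0⟩
    obtain ⟨L, hL, hQL⟩ := H29.Trap.fin_sub (Q 0)
    refine (H29.Trap.exit_of (act (T0 F)) {x | x 0 * (x 0 - 1) ≠ 0}
      (Set.univ.pi fun _ => (L : Set (AlgebraicClosure F))) (Set.Finite.pi fun _ => hL)
      ?_ Q ?_ ?_).elim fun k hk => ?_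
    rotate_right
    · have hk' : (act (T0 F))^[k] Q 0 * ((act (T0 F))^[k] Q 0 - 1) = 0 := not_not.1 hk
      rcases mul_eq_zero.1 hk' with h | h
      · exact Or.inl ⟨k + 1, by omega, by
          rw [Function.iterate_succ_apply']; exact kill0 _ h⟩
      · exact Or.inr ⟨k + 1, by omega, by
          rw [Function.iterate_succ_apply']; exact kill1 _ (sub_eq_zero.1 h)⟩
    · intro x hx y _ h
      have e0 := congrFun h 0
      have e1 := congrFun h 1
      rw [act0, act0] at e0
      rw [act1, act1] at e1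
      rw [← e1] at e0
      have e2 := sub_left_injective (mul_left_cancel₀ hx (add_left_cancel e0))
      funext i
      fin_cases i
      · exact e1
      · exact e2
    · rintro ⟨x, rfl⟩
      rw [act1] at hQ
      rw [act0, hQ] at h0
      simp at h0
    · intro k
      induction k with
      | zero =>
        intro i _
        fin_cases i
        · exact hQL
        · show Q 1 ∈ L
          rw [hQ]
          exact L.zero_mem
      | succ k ih =>
        rw [Function.iterate_succ_apply']
        intro i _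
        fin_cases i
        · show act (T0 F) _ 0 ∈ L
          rw [act0]
          exact L.add_mem (ih 0 trivial) (L.mul_mem (L.mul_mem (ih 0 trivial)
            (L.sub_mem (ih 0 trivial) L.one_mem)) (L.sub_mem (ih 1 trivial)
              (L.pow_mem (ih 0 trivial) 2)))
        · show act (T0 F) _ 1 ∈ L
          rw [act1]
          exact ih 0 trivial
  · refine inf_of _ _ _ (kill0 _ rfl) fun k => ?_
    obtain ⟨a, b, ha, hb, h⟩ := orbit (F := F) k
    obtain ⟨t, ht⟩ := root (Polynomial.X * a - 1) (b - Polynomial.X * a ^ 2)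
      (fun h => by simpa using congrArg (Polynomial.eval 0) h) (by simp [hb])
    simp only [Polynomial.eval_sub, Polynomial.eval_mul, Polynomial.eval_X, Polynomial.eval_one,
      Polynomial.eval_pow] at ht
    refine ⟨![t, 0], (mem_V _).2 rfl, fun hh => ?_, ?_⟩
    · have e0 := (h t).1
      have e1 := (h t).2
      rw [hh] at e0 e1
      simp only [Pi.zero_apply] at e0 e1
      have : (1 : AlgebraicClosure F) = 0 := by
        linear_combination ht + (t * a.eval t - 1) * e1 - (t * a.eval t - 1) * (t * a.eval t) * e0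
      exact one_ne_zero this
    · rw [Function.iterate_succ_apply', Function.iterate_succ_apply']
      apply kill0
      rw [act0, (h t).1, (h t).2]
      linear_combination (t * a.eval t) * ht
  · refine inf_of _ _ _ (kill1 _ rfl) fun k => ?_
    obtain ⟨a, b, ha, hb, h⟩ := orbit (F := F) k
    obtain ⟨t, ht⟩ := root (Polynomial.X * a) (b - Polynomial.X * a ^ 2)
      (mul_ne_zero Polynomial.X_ne_zero (fun h => by simp [h] at ha)) (by simp [hb])
    simp only [Polynomial.eval_sub, Polynomial.eval_mul, Polynomial.eval_X,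
      Polynomial.eval_pow] at ht
    refine ⟨![t, 0], (mem_V _).2 rfl, fun hh => ?_, ?_⟩
    · have e0 := (h t).1
      have e1 := (h t).2
      rw [hh] at e0 e1
      simp only [Pi.one_apply] at e0 e1
      have : (1 : AlgebraicClosure F) = 0 := by
        linear_combination ht + (t * a.eval t) * e1
          - (t * a.eval t) * (t * a.eval t + 1) * e0
      exact one_ne_zero this
    · rw [Function.iterate_succ_apply', Function.iterate_succ_apply']
      apply kill1
      rw [act0, (h t).1, (h t).2]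
      linear_combination (t * a.eval t - 1) * ht

end Pool.Agent.Results.MP_2dcdad_ag.Example
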